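import Pool.Agent.N625.PT.X18

/-!
# Primes `p` with `4 p + 1 + N` prime, `p` in an arbitrary dense set of primes, for random multiples `N` of a small primorial

Nothing is used besides Mathlib in the statement: `∑ v ∈ range (b ^ k), (if P v then μ v else 0)` is the probability that
the random integer `v < b ^ k` with the distribution `μ` has the property `P`.
-/

set_option autoImplicit false

open Finset

namespace Pool.Agent.Results.MP_3df474_nt.ExchangeableConstants

/-- The probability, for the distribution `μ` on the words of `k` digits (the integers `v < b ^ k`), that the word begins with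
the `i` digits of `u < b ^ i`. -/
noncomputable def begins (b k : ℕ) (μ : ℕ → ℝ) (i u : ℕ) : ℝ := ∑ w ∈ range (b ^ (k - i)), μ (u * b ^ (k - i) + w)

/-- `p` is a probability on the words of `k` digits in base `b`, read as integers `v < b ^ k`. There is another probability
`μ` with `p ≤ k ^ T μ` such that after every beginning `u` two different blocks `a`, `a'` of `L` digits can be exchanged:
`p (u a w) = r p (u a' w)` for all endings `w`, with a factor `r` between `η` and `1 / η` which does not depend on `w`; and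
given the beginning `u`, each of the two blocks comes next with a probability of at least `η` in the distribution `μ`.
(For `T = 0` one has `μ = p`. For the uniform distribution on a set of words `r` is `1`.) -/
structure Exchangeable (b L : ℕ) (η : ℝ) (T k : ℕ) (p : ℕ → ℝ) : Prop where
  nonneg : ∀ v, 0 ≤ p v
  sum : ∑ v ∈ range (b ^ k), p v = 1
  dominated : ∃ μ : ℕ → ℝ, (∀ v, 0 ≤ μ v) ∧ ∑ v ∈ range (b ^ k), μ v = 1 ∧ (∀ v < b ^ k, p v ≤ (k : ℝ) ^ T * μ v) ∧
    ∀ i u : ℕ, i + L ≤ k → u < b ^ i → ∃ (a a' : ℕ) (r : ℝ), a < a' ∧ a' < b ^ L ∧ η ≤ r ∧ η * r ≤ 1 ∧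
      (∀ w < b ^ (k - (i + L)), p ((b ^ L * u + a) * b ^ (k - (i + L)) + w) = r * p ((b ^ L * u + a') * b ^ (k - (i + L)) + w)) ∧
      η * begins b k μ i u ≤ begins b k μ (i + L) (b ^ L * u + a) ∧
      η * begins b k μ i u ≤ begins b k μ (i + L) (b ^ L * u + a')

/-- the product of `1 - 1/q` over the primes `q ≤ y` -/
noncomputable def V (y : ℕ) : ℝ := ∏ q ∈ (Icc 1 y).filter Nat.Prime, (1 - 1 / (q : ℝ))

/-- the multiple of the product of the primes `≤ y` given by the integers `h` and `c + κ v` -/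
def Nv (y h : ℕ) (c κ : ℤ) (v : ℕ) : ℤ := ((primorial y * h : ℕ) : ℤ) * (c + κ * v)

/-- the `p ∈ S` such that `4 p + 1 + n` is prime -/
def Good (S : Finset ℕ) (n : ℤ) : Finset ℕ := S.filter (fun p : ℕ => (4 * (p : ℤ) + 1 + n).toNat.Prime)

/-- the primes `p ≤ x`, `p ≡ a mod q` -/
def Cls (a q x : ℕ) : Finset ℕ := (Icc 1 x).filter (fun p : ℕ => p.Prime ∧ p ≡ a [MOD q])

lemma begins_sum (b k : ℕ) (μ : ℕ → ℝ) (i u : ℕ) (hi : i < k) :
    ∑ a ∈ range b, begins b k μ (i + 1) (b * u + a) = begins b k μ i u := by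
  unfold begins
  obtain ⟨n, hn⟩ : ∃ n, k - i = n + 1 := ⟨k - i - 1, by omega⟩
  have h1 : k - (i + 1) = n := by omega
  rw [h1, hn, pow_succ, mul_comm (b ^ n) b, Pool.Agent.N625.PT.sum_blocks b (b ^ n)]
  apply sum_congr rfl
  intro a _
  apply sum_congr rfl
  intro w _
  congr 1
  ring

lemma flex_of {b L T k : ℕ} {η : ℝ} {p : ℕ → ℝ} (hp : Exchangeable b L η T k p) : Pool.Agent.N625.PT.Flex b L η T k p := by
  obtain ⟨h0, h1, μ, m0, m1, m2, m3⟩ := hp
  have hT : (0 : ℝ) ≤ (k : ℝ) ^ T := by positivity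
  have hb0 : ∀ i u, 0 ≤ begins b k μ i u := fun i u => sum_nonneg fun w _ => m0 _
  refine ⟨h0, h1, fun i u => (k : ℝ) ^ T * begins b k μ i u, fun i u => mul_nonneg hT (hb0 i u), ?_, ?_, ?_, ?_⟩
  · intro v hv
    refine (m2 v hv).trans (le_of_eq ?_)
    unfold begins
    simp
  · intro i hi u _
    simp only
    rw [← mul_sum, begins_sum b k μ i u hi]
  · simp only
    have : begins b k μ 0 0 = 1 := by
      unfold begins
      simpa using m1
    rw [this, mul_one]
  · intro i u hi hu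
    obtain ⟨a, a', r, q1, q2, q3, q4, q5, q6, q7⟩ := m3 i u hi hu
    refine ⟨a, a', r, q1, q2, q3, q4, q5, ?_, ?_⟩
    · simp only
      calc η * ((k : ℝ) ^ T * begins b k μ i u) = (k : ℝ) ^ T * (η * begins b k μ i u) := by ring
        _ ≤ _ := mul_le_mul_of_nonneg_left q6 hT
    · simp only
      calc η * ((k : ℝ) ^ T * begins b k μ i u) = (k : ℝ) ^ T * (η * begins b k μ i u) := by ring
        _ ≤ _ := mul_le_mul_of_nonneg_left q7 hT

lemma four_cop (a p q D : ℕ) (hp : p ≡ a [MOD q]) (ha : (4 * a + 1).Coprime q) (hD : D ∣ q) : (4 * p + 1).Coprime D := by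
  have h1 : 4 * p + 1 ≡ 4 * a + 1 [MOD q] := (hp.mul_left 4).add_right 1
  have h2 : (4 * p + 1).Coprime q := by
    unfold Nat.Coprime
    rw [h1.gcd_eq]
    exact ha
  exact h2.coprime_dvd_right hD

/-- Let `v < b ^ k` be a random integer whose distribution `μ` has exchangeable blocks of digits, let `y` be between
`θ log k` and `K₁ log k` (`θ > 0` is arbitrary), `M` the product of the primes `≤ y`, `|c| ≤ B b ^ k`, `1 ≤ h ≤ k ^ J`,
`N = M h (c + κ v)`, and let `X` be an integer with `b ^ k ≤ X k ^ C`, `X ≤ b ^ k k ^ C`. (1) For EVERY set `S` of at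
least `X / k ^ A` primes `p ≤ X` with `4 p + 1` prime to `M h` the following has a probability of at most `ε`:
`N ≥ 0`, and the number of the `p ∈ S` such that `4 p + 1 + N` is prime differs from the expected number
`E = #S / (V y log b ^ k)` by more than `ε E`. (2) For every multiple `q ≤ k ^ A` of `M h` and every `a` such that `a` and
`4 a + 1` are prime to `q` there are at least `X / (4 q log X)` primes `p ≤ X` with `p ≡ a mod q`, and (1) holds for the set
`S` of all of them. -/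
theorem result : ∀ (b L : ℕ), 2 ≤ b → 1 ≤ L → ∀ η : ℝ, 0 < η → η ≤ 1 → ∀ (T₀ : ℕ) (κ : ℤ), κ ≠ 0 →
    ∀ (B J A C K₁ : ℕ) (θ : ℝ), 0 < θ → ∀ ε : ℝ, 0 < ε → ε ≤ 1 → ∃ k₀ : ℕ, ∀ k : ℕ, k₀ ≤ k →
    ∀ μ : ℕ → ℝ, Exchangeable b L η T₀ k μ → ∀ y : ℕ, θ * Real.log k ≤ y → y ≤ K₁ * Real.log k →
    ∀ c : ℤ, |c| ≤ B * (b : ℤ) ^ k → ∀ h : ℕ, 1 ≤ h → h ≤ k ^ J → ∀ X : ℕ, b ^ k ≤ X * k ^ C → X ≤ b ^ k * k ^ C →
      (∀ S : Finset ℕ, S ⊆ Icc 1 X → (∀ p ∈ S, p.Prime ∧ (4 * p + 1).Coprime (primorial y * h)) → (X : ℝ) ≤ S.card * (k : ℝ) ^ A →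
        ∑ v ∈ range (b ^ k), (if 0 ≤ Nv y h c κ v ∧ ε * (S.card / (V y * (k * Real.log b))) <
            |((Good S (Nv y h c κ v)).card : ℝ) - S.card / (V y * (k * Real.log b))| then μ v else 0) ≤ ε) ∧
      (∀ q : ℕ, 1 ≤ q → q ≤ k ^ A → primorial y * h ∣ q → ∀ a : ℕ, a.Coprime q → (4 * a + 1).Coprime q →
        (X : ℝ) / (4 * q * Real.log X) ≤ ((Cls a q X).card : ℝ) ∧
        ∑ v ∈ range (b ^ k), (if 0 ≤ Nv y h c κ v ∧ ε * ((Cls a q X).card / (V y * (k * Real.log b))) <
            |((Good (Cls a q X) (Nv y h c κ v)).card : ℝ) - (Cls a q X).card / (V y * (k * Real.log b))| then μ v else 0) ≤ ε) := by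
  classical
  intro b L hb hL η hη0 hη1 T₀ κ hκ B J A C K₁ θ hθ ε hε hε1
  obtain ⟨k₀, h0⟩ := Pool.Agent.N625.PT.law2 b L hb hL η hη0 hη1 κ hκ T₀ B J (A + 5) (C + 1) K₁ θ hθ ε hε hε1
  obtain ⟨X₀, hX₀⟩ := Pool.Agent.N625.PT.ap_low (A + 1)
  obtain ⟨k₁, h1⟩ := Pool.Agent.N625.PT.X_large b C hb
  obtain ⟨k₂, h2⟩ := Pool.Agent.N625.PT.log_X b C hb
  obtain ⟨k₄, h4⟩ := Pool.Agent.N625.PT.log_low b C hb
  refine ⟨max (max k₀ k₁) (max (max k₂ k₄) (max 5 (max X₀ (4 ^ (A + 1))))), fun k hk μ hμ y hy1 hy2 c hc h hh1 hhJ X hX1 hX2 => ?_⟩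
  have b4 : 5 ≤ k := by omega
  have b5 : 4 ^ (A + 1) ≤ k := by omega
  have hkr : (5 : ℝ) ≤ k := by exact_mod_cast b4
  have hk0 : (0 : ℝ) < k := by linarith
  have hkX := h1 k (by omega) X hX1
  have hlX := h2 k (by omega) X hX2
  have hlX2 := h4 k (by omega) X hX1
  have hX1' : b ^ k ≤ (5 * X) * k ^ (C + 1) := by
    refine hX1.trans (Nat.mul_le_mul (by omega) (Nat.pow_le_pow_right (by omega) (by omega)))
  have hX2' : 5 * X ≤ b ^ k * k ^ (C + 1) := by
    calc 5 * X ≤ k * (b ^ k * k ^ C) := Nat.mul_le_mul b4 hX2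
      _ = _ := by rw [pow_succ]; ring
  have hinj : Function.Injective (fun p : ℕ => 4 * p + 1) := fun a b hab => by
    simp only at hab
    omega
  have main : ∀ S : Finset ℕ, S ⊆ Icc 1 X → (∀ p ∈ S, p.Prime ∧ (4 * p + 1).Coprime (primorial y * h)) → (X : ℝ) ≤ S.card * (k : ℝ) ^ (A + 4) →
        ∑ v ∈ range (b ^ k), (if 0 ≤ Nv y h c κ v ∧ ε * (S.card / (V y * (k * Real.log b))) <
            |((Good S (Nv y h c κ v)).card : ℝ) - S.card / (V y * (k * Real.log b))| then μ v else 0) ≤ ε := by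
    intro S hS hSp hSA
    obtain ⟨S', hS'⟩ : ∃ S', S' = S.image (fun p : ℕ => 4 * p + 1) := ⟨_, rfl⟩
    have hcard : S'.card = S.card := by rw [hS']; exact card_image_of_injective _ hinj
    have h5 := h0 k (by omega) μ (flex_of hμ) y hy1 hy2 c hc h hh1 hhJ (5 * X) hX1' hX2' S' (by
        intro s hs
        rw [hS', mem_image] at hs
        obtain ⟨p, hp, rfl⟩ := hs
        have := mem_Icc.1 (hS hp)
        rw [mem_Icc]
        omega) (by
        intro s hs
        rw [hS', mem_image] at hs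
        obtain ⟨p, hp, rfl⟩ := hs
        exact (hSp p hp).2) (by
        rw [hcard]
        push_cast
        calc (5 : ℝ) * X ≤ k * (S.card * (k : ℝ) ^ (A + 4)) := mul_le_mul hkr hSA (Nat.cast_nonneg _) hk0.le
          _ = _ := by ring) 1 (Or.inl rfl)
    refine le_trans (sum_le_sum fun v _ => ?_) h5
    have hpv := hμ.nonneg v
    by_cases hq : 0 ≤ Nv y h c κ v ∧ ε * (S.card / (V y * (k * Real.log b))) <
            |((Good S (Nv y h c κ v)).card : ℝ) - S.card / (V y * (k * Real.log b))|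
    · rw [if_pos hq, if_pos]
      obtain ⟨q1, q2⟩ := hq
      have hNv : Nv y h c κ v = ((primorial y * h : ℕ) : ℤ) * (c + κ * (v : ℕ)) := rfl
      refine ⟨fun s hs => ?_, ?_⟩
      · rw [hS', mem_image] at hs
        obtain ⟨p, hp, rfl⟩ := hs
        rw [← hNv]
        push_cast
        have : (0 : ℤ) ≤ (p : ℤ) := Int.natCast_nonneg p
        linarith
      · have e1 : (S'.filter (fun s : ℕ => (((primorial y * h : ℕ) : ℤ) * (c + κ * (v : ℕ)) + 1 * (s : ℕ)).toNat.Prime)).card =
            (Good S (Nv y h c κ v)).card := by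
          rw [hS', filter_image, card_image_of_injective _ hinj]
          unfold Good
          congr 1
          apply filter_congr
          intro p _
          rw [← hNv]
          have e : Nv y h c κ v + 1 * ((4 * p + 1 : ℕ) : ℤ) = 4 * (p : ℤ) + 1 + Nv y h c κ v := by
            push_cast
            ring
          rw [e]
        rw [e1, hcard]
        exact q2
    · rw [if_neg hq]
      split_ifs
      · exact hpv
      · exact le_rfl
  refine ⟨fun S hS hSp hSA => main S hS hSp (hSA.trans ?_), fun q hq1 hqk hqd a ha1 ha2 => ?_⟩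
  · apply mul_le_mul_of_nonneg_left _ (Nat.cast_nonneg _)
    exact pow_le_pow_right₀ (by linarith) (by omega)
  · have hqL : (q : ℝ) ≤ Real.log X ^ (A + 1) := by
      have g1 : (q : ℝ) ≤ (k : ℝ) ^ A := by exact_mod_cast hqk
      refine g1.trans ?_
      have g2 : ((k : ℝ) / 4) ^ (A + 1) ≤ Real.log X ^ (A + 1) := pow_le_pow_left₀ (by positivity) hlX2 _
      refine le_trans ?_ g2
      rw [div_pow, le_div_iff₀ (by positivity), pow_succ]
      have g3 : ((4 : ℝ)) ^ (A + 1) ≤ k := by exact_mod_cast b5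
      exact mul_le_mul_of_nonneg_left g3 (by positivity)
    have g1 := hX₀ X (by omega) q hq1 hqL a ha1
    have e1 : ((Icc 1 X).filter (fun p : ℕ => p.Prime ∧ p ≡ a [MOD q])).card = (Cls a q X).card := rfl
    rw [e1] at g1
    refine ⟨g1, main (Cls a q X) (filter_subset _ _) (fun p hp => ?_) ?_⟩
    · have hp' := mem_filter.1 hp
      exact ⟨hp'.2.1, four_cop a p q _ hp'.2.2 ha2 hqd⟩
    · have hq0 : (0 : ℝ) < q := by exact_mod_cast (by omega : 0 < q)
      have hl0 : 0 < Real.log X := by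
        have : 0 < (k : ℝ) / 4 := by positivity
        linarith
      rw [div_le_iff₀ (by positivity)] at g1
      refine g1.trans ?_
      apply mul_le_mul_of_nonneg_left _ (Nat.cast_nonneg _)
      have g2 : (q : ℝ) ≤ (k : ℝ) ^ A := by exact_mod_cast hqk
      calc 4 * (q : ℝ) * Real.log X ≤ k * (k : ℝ) ^ A * (k : ℝ) ^ 2 := by
            gcongr
            linarith
        _ = (k : ℝ) ^ (A + 3) := by ring
        _ ≤ _ := pow_le_pow_right₀ (by linarith) (by omega)

end Pool.Agent.Results.MP_3df474_nt.ExchangeableConstants
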