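import Pool.Agent.N469.LP.Page

/-!
# Primes `p` for which `4 p + h` is prime, in progressions, for all odd `h` near almost all smooth numbers

Definition used: `Pool.Agent.H560R3.GB.C₂`, the twin prime constant `∏_{p > 2} (1 - 1 / (p - 1) ^ 2)`
(the infimum of the partial products).

The proof combines an elementary bound for the exponential sum over the integers composed of primes from a given set
(`Pool.Agent.N469.SQ.exp_alt`: it is large only near few rational numbers with small denominators), the replacement of the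
von Mangoldt function at the values of a linear form by its sieve model in the second moment (`Pool.Agent.N469.LP.sm_repZ`,
based on the starting files `Pool.Agent.Y885`), and a fundamental lemma for the primes of a progression whose images
under a linear form have no small prime factors (`Pool.Agent.N469.LP.HH_main`).
-/

set_option autoImplicit false

namespace Pool.Agent.Results.MP_3df474_nt.SmoothShifts

open Finset Pool.Agent.H560R3.GB

/-- The number of the primes `p` with `x < p ≤ x'` and `p ≡ a (mod q)` such that `4 p + h` is prime. (For `h = 1`, `q = 1`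
and `x = 0` this is the number `N(x')` of the problem.) -/
def pairs (h : ℤ) (q a x x' : ℕ) : ℕ :=
  ((Ioc x x').filter fun p : ℕ => p.Prime ∧ p ≡ a [MOD q] ∧ (4 * (p : ℤ) + h).toNat.Prime).card

/-- The number of the classes `a mod q` such that `a` and `4 a + h` are coprime to `q`. -/
def classes (h : ℤ) (q : ℕ) : ℕ :=
  ((range q).filter fun a : ℕ => Nat.Coprime a q ∧ Int.gcd (4 * (a : ℤ) + h) q = 1).card

/-- The main term of the conjecture of Hardy and Littlewood. -/
noncomputable def main (h : ℤ) (N q x x' : ℕ) : ℝ :=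
  2 * C₂ * (∏ p ∈ h.natAbs.primeFactors.filter (fun p => 2 < p), ((p : ℝ) - 1) / ((p : ℝ) - 2)) / classes h q *
    (((x' : ℝ) - x) / Real.log N ^ 2)

/-- The number of the primes `p` with `x < p ≤ x'` and `p ≡ a (mod q)` such that `4 p + h` is prime is asymptotically the
expected number, for all `q ≤ (log N) ^ D`, all admissible classes `a`, and all the intervals `(x, x']` of length at least
`N / (log N) ^ W` with `x' ≤ B N` on which `4 p + h` is positive. -/
def Holds (ε : ℝ) (B D W N : ℕ) (h : ℤ) : Prop :=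
  ∀ q a x x' : ℕ, 1 ≤ q → (q : ℝ) ≤ Real.log N ^ D → Nat.Coprime a q → Int.gcd (4 * (a : ℤ) + h) q = 1 →
    x' ≤ B * N → (x : ℝ) + N / Real.log N ^ W ≤ x' → 0 ≤ 4 * (x : ℤ) + h →
    |(pairs h q a x x' : ℝ) - main h N q x x'| ≤ ε * main h N q x x'

/-- The integers `1 ≤ v ≤ N` all of whose prime factors belong to `P`. -/
def composedOf (P : Finset ℕ) (N : ℕ) : Finset ℕ := (Icc 1 N).filter fun v => v.primeFactors ⊆ P

/-- The `y`-smooth integers `1 ≤ v ≤ N`: the integers all of whose prime factors are at most `y`. -/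
def smooth (y N : ℕ) : Finset ℕ := (Icc 1 N).filter fun v => ∀ p ∈ v.primeFactors, p ≤ y

open Classical in
/-- Let `A`, `B`, `D`, `W`, `U`, `K`, the integer `κ ≠ 0`, `ε > 0` and `δ > 0` be fixed, let `N` be large,
`1 ≤ y ≤ log ^ K N`, and let `c` be an arbitrary integer with `|c| ≤ B N`.

(1) Let `P` be an arbitrary set of primes which are at most `y`, with at least `y ^ (1 / 2 + δ) log N` elements. Then
for all the integers `v ≤ N` composed of primes from `P`, up to a proportion of at most `1 / log ^ U N` of them,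
all odd `h = c + κ v + r` with `|r| ≤ (log N) ^ A` satisfy: the number of the primes `p ≡ a (mod q)` in `(x, x']` for which
`4 p + h` is prime is asymptotically the expected number, in all progressions with `q ≤ (log N) ^ D` and all intervals of
length at least `N / (log N) ^ W` as in `Holds`. (There can be as few as about `N ^ (1 / 2 + δ)` such integers `v`.)

(2) In particular this holds for all the `y`-smooth integers `v ≤ N`, up to a proportion of at most `1 / log ^ U N` of them,
if `y ≥ log ^ (2 + δ) N`. -/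
theorem result (A B D W U K : ℕ) (κ : ℤ) (hκ : κ ≠ 0) (ε : ℝ) (hε : 0 < ε) (δ : ℝ) (hδ : 0 < δ) :
    ∃ N₀ : ℕ, ∀ N, N₀ ≤ N → ∀ y : ℕ, 1 ≤ y → (y : ℝ) ≤ Real.log N ^ K → ∀ c : ℤ, |c| ≤ B * N →
      (∀ P : Finset ℕ, (∀ p ∈ P, p.Prime ∧ p ≤ y) → (y : ℝ) ^ (1 / 2 + δ) * Real.log N ≤ P.card →
        (((composedOf P N).filter fun v : ℕ => ∃ r : ℤ, |(r : ℝ)| ≤ Real.log N ^ A ∧ Odd (c + κ * v + r) ∧
          ¬ Holds ε B D W N (c + κ * v + r)).card : ℝ) ≤ ((composedOf P N).card : ℝ) / Real.log N ^ U) ∧
      (Real.log N ^ (2 + δ) ≤ y →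
        (((smooth y N).filter fun v : ℕ => ∃ r : ℤ, |(r : ℝ)| ≤ Real.log N ^ A ∧ Odd (c + κ * v + r) ∧
          ¬ Holds ε B D W N (c + κ * v + r)).card : ℝ) ≤ ((smooth y N).card : ℝ) / Real.log N ^ U) := by
  obtain ⟨N₀, h0⟩ := Pool.Agent.N469.TL.both δ hδ K U _
    (Pool.Agent.N469.LP.sm_lin ε hε κ hκ 4 (by norm_num) K B A D W U)
  refine ⟨N₀, fun N hN y hy hy' c hc => ?_⟩
  refine h0 N hN y hy hy' (fun v : ℕ => ∃ r : ℤ, |(r : ℝ)| ≤ Real.log N ^ A ∧ Odd (c + κ * v + r) ∧
    ¬ Holds ε B D W N (c + κ * v + r)) (fun v => inferInstance) ⟨c, hc, ?_⟩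
  rintro v ⟨r, hr, hodd, hnot⟩
  obtain ⟨h, hh⟩ : ∃ h, h = c + κ * (v : ℤ) + r := ⟨_, rfl⟩
  rw [← hh] at hodd hnot
  refine ⟨r, hr, ?_⟩
  rw [← hh]
  have hne : h ≠ 0 := by
    rintro rfl
    simp at hodd
  have hg : Int.gcd 4 h = 1 := by
    have h1 : IsCoprime (2 : ℤ) h := by
      rw [Int.isCoprime_iff_gcd_eq_one]
      obtain ⟨k, hk⟩ := hodd
      rw [hk]
      simp
    have h2 : IsCoprime ((2 : ℤ) ^ 2) h := h1.pow_left
    rw [Int.isCoprime_iff_gcd_eq_one] at h2
    norm_num at h2
    exact h2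
  refine ⟨hne, hg, ⟨2 * h, by ring⟩, fun hgood => hnot ?_⟩
  intro q a x x' hq hqD ha hga hx' hxx' hpos
  have hkey := hgood q a x x' hq hqD ha hga hx' hxx' (by
    intro n hn
    rw [mem_Ioc] at hn
    omega)
  rw [Pool.Agent.N469.LP.dens_eq 4 h hg q hq, Pool.Agent.N469.LP.sing_pow 2 4 h (by norm_num) hne] at hkey
  exact hkey

end Pool.Agent.Results.MP_3df474_nt.SmoothShifts
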